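import Pool.Agent.Q32.HypChain

/-!
# MP_6b630c_al: an uncountable chain of quasi-parabolic structures on `ℤ ≀ ℤ`

For `b > 1` let `X_b` consist of the generator `t` of `ℤ` and of all lamp configurations
`f = ∑ a_i x^i` with `∑ |a_i| b^(-i) ≤ 1` (so `a_i = 0` for `i < 0`, and `|a_i| ≤ b^i`).
The structures `[X_b]` are quasi-parabolic and strictly decreasing in `b`.
-/

namespace Pool.Agent.Results.MP_6b630c_al.RealChain

open Q32.Hyp

/-- `H_qp(ℤ ≀ ℤ)` contains a chain with the order type of the real line, hence an uncountable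
chain. -/
theorem result :
    ∃ f : ℝ → Classes ZwrZ, StrictMono f ∧ (∀ r, f r ∈ Hqp ZwrZ) ∧
      IsChain (· ≤ ·) (Set.range f) ∧ ¬ (Set.range f).Countable := by
  obtain ⟨f, hf, hq⟩ := exists_chain (π := MonoidHom.id ZwrZ) Function.surjective_id
  refine ⟨f, hf, hq, ?_, ?_⟩
  · rintro _ ⟨r, rfl⟩ _ ⟨s, rfl⟩ _
    rcases le_total r s with h | h
    · exact Or.inl (hf.monotone h)
    · exact Or.inr (hf.monotone h)
  · intro hc
    have := hc.to_subtype
    have hcount : Countable ℝ :=
      Function.Injective.countable (f := Set.rangeFactorization f)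
        (fun _ _ h => hf.injective (Subtype.ext_iff.1 h))
    exact not_countable hcount

end Pool.Agent.Results.MP_6b630c_al.RealChain
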